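import Pool.Agent.Q16.Loz.Rank

/-!
# Graded polynomial Poisson algebras whose log-ozone group is larger than the rank over the centre
-/

open Q16.Loz

universe u

namespace Pool.Agent.Results.MP_987c99_al.LozExceedsRank

/-- For every odd prime `p` and every field `k` of characteristic `p` there is a graded Poisson
bracket on `k[x_0, x_1, x_2, x_3]` for which the rank over the Poisson centre is at most `p ^ 2`
while the log-ozone group has at least `p ^ 3` elements; so `|loz(P)| > rk_{Z(P)}(P)`. -/
theorem result (p : ℕ) (hp : p.Prime) (hodd : p ≠ 2) (k : Type u) [Field k] [CharP k p] :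
    ∃ B : PoissonBracket k 4, B.IsGraded ∧
      B.rankOverCenter ≤ ((p ^ 2 : ℕ) : Cardinal) ∧
      ((p ^ 3 : ℕ) : Cardinal) ≤ Cardinal.mk B.loz ∧
      B.rankOverCenter < Cardinal.mk B.loz := by
  have : Fact p.Prime := ⟨hp⟩
  refine ⟨B k, graded, rank_le p hodd, le_card_loz p hodd, ?_⟩
  refine lt_of_le_of_lt (rank_le p hodd) (lt_of_lt_of_le ?_ (le_card_loz p hodd))
  exact_mod_cast Nat.pow_lt_pow_right hp.one_lt (by norm_num)

end Pool.Agent.Results.MP_987c99_al.LozExceedsRank
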